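import Mathlib
set_option autoImplicit false

/-!
General facts about closed trails and lists of closed trails (cycle covers), used by several hand-ins.
-/
namespace Pool.Agent.H15CC

open SimpleGraph

/-- A nodup list filtered by membership in another nodup list which contains it has the right length. -/
theorem length_eq_sum_ind {α : Type} (A B : List α) (hA : A.Nodup) (hB : B.Nodup)
    (h : ∀ a ∈ A, a ∈ B) (d : (x : α) → Decidable (x ∈ A)) :
    A.length = (B.map (fun x => @ite ℕ (x ∈ A) (d x) 1 0)).sum := by
  classical
  have h1 : (B.map (fun x => @ite ℕ (x ∈ A) (d x) 1 0)).sum = B.countP (fun x => decide (x ∈ A)) := by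
    clear h hB hA
    induction B with
    | nil => simp
    | cons b t ih =>
      rw [List.map_cons, List.sum_cons, List.countP_cons, ih]
      by_cases hb : b ∈ A
      · simp [hb, add_comm]
      · simp [hb]
  rw [h1, List.countP_eq_length_filter]
  have : A.Perm (B.filter (fun x => decide (x ∈ A))) := by
    rw [List.perm_ext_iff_of_nodup hA (hB.filter _)]
    intro a
    simp only [List.mem_filter, decide_eq_true_eq]
    exact ⟨fun ha => ⟨h a ha, ha⟩, fun ha => ha.2⟩
  exact this.length_eq

/-- The number of members of the list `F` of closed walks which contain `e`. -/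
noncomputable def mult {V : Type} {G : SimpleGraph V} (F : List (Σ u : V, G.Walk u u)) (e : Sym2 V) : ℕ := by
  classical exact F.countP (fun c => decide (e ∈ c.2.edges))

theorem mult_cons {V : Type} {G : SimpleGraph V} (c : Σ u : V, G.Walk u u)
    (F : List (Σ u : V, G.Walk u u)) (e : Sym2 V) (d : Decidable (e ∈ c.2.edges)) :
    mult (c :: F) e = mult F e + @ite ℕ (e ∈ c.2.edges) d 1 0 := by
  classical
  unfold mult
  rw [List.countP_cons]
  by_cases h : e ∈ c.2.edges
  · simp [h]
  · simp [h]

/-- Parity at a vertex for a single closed trail. -/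
theorem even_single {V : Type} {G : SimpleGraph V} {a : V} (p : G.Walk a a) (hp : p.IsTrail) (v : V)
    (L : List V) (hL : L.Nodup) (hadj : ∀ u, G.Adj v u → u ∈ L)
    (d : (e : Sym2 V) → Decidable (e ∈ p.edges)) :
    Even ((L.map (fun u => @ite ℕ (s(v, u) ∈ p.edges) (d _) 1 0)).sum) := by
  classical
  have h0 : Even (p.edges.countP fun e => v ∈ e) := by
    rw [hp.even_countP_edges_iff]
    intro h; exact absurd rfl h
  rw [List.countP_eq_length_filter] at h0
  have hn : (p.edges.filter (fun e => decide (v ∈ e))).Nodup := hp.edges_nodup.filter _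
  have hB : (L.map (fun u => s(v, u))).Nodup := by
    refine hL.map ?_
    intro x y hxy
    exact Sym2.congr_right.mp hxy
  have key := length_eq_sum_ind _ (L.map (fun u => s(v, u))) hn hB ?_ (fun e => Classical.propDecidable _)
  · rw [key] at h0
    rw [List.map_map] at h0
    have : (L.map ((fun x => @ite ℕ (x ∈ p.edges.filter (fun e => decide (v ∈ e))) (Classical.propDecidable _) 1 0) ∘ fun u => s(v, u)))
        = (L.map (fun u => @ite ℕ (s(v, u) ∈ p.edges) (d _) 1 0)) := by
      apply List.map_congr_left
      intro u _
      simp only [Function.comp]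
      by_cases h : s(v, u) ∈ p.edges
      · simp [h]
      · simp [h]
    rw [this] at h0
    exact h0
  · intro e he
    rw [List.mem_filter] at he
    obtain ⟨he, hv⟩ := he
    simp only [decide_eq_true_eq] at hv
    obtain ⟨u, rfl⟩ := Sym2.mem_iff_exists.mp hv
    rw [List.mem_map]
    refine ⟨u, hadj u ?_, rfl⟩
    exact p.adj_of_mem_edges he

/-- Parity at a vertex for a family of closed trails. -/
theorem even_mult {V : Type} {G : SimpleGraph V} (F : List (Σ u : V, G.Walk u u))
    (hF : ∀ c ∈ F, c.2.IsTrail) (v : V)
    (L : List V) (hL : L.Nodup) (hadj : ∀ u, G.Adj v u → u ∈ L) :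
    Even ((L.map (fun u => mult F s(v, u))).sum) := by
  classical
  induction F with
  | nil => simp [mult]
  | cons c F ih =>
    have h1 := ih (fun c hc => hF c (List.mem_cons_of_mem _ hc))
    have h2 := even_single c.2 (hF c List.mem_cons_self) v L hL hadj (fun e => Classical.propDecidable _)
    have h3 := h1.add h2
    rw [← List.sum_map_add] at h3
    have h4 : (L.map (fun u => mult (c :: F) s(v, u))) = (L.map (fun i => mult F s(v, i) +
        @ite ℕ (s(v, i) ∈ c.2.edges) (Classical.propDecidable _) 1 0)) := by
      apply List.map_congr_left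
      intro u _
      exact mult_cons _ _ _ _
    rw [h4]
    exact h3

/-- The total length of a family of closed trails. -/
theorem total_eq {V : Type} {G : SimpleGraph V} (F : List (Σ u : V, G.Walk u u))
    (hF : ∀ c ∈ F, c.2.IsTrail) (EL : List (Sym2 V)) (hEL : EL.Nodup) (hE : ∀ e ∈ G.edgeSet, e ∈ EL) :
    (F.map (fun c => c.2.length)).sum = (EL.map (mult F)).sum := by
  classical
  induction F with
  | nil =>
    have : (EL.map (mult ([] : List (Σ u : V, G.Walk u u)))) = EL.map (fun _ => 0) := by
      apply List.map_congr_left; intro e _; simp [mult]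
    rw [this]; simp
  | cons c F ih =>
    have h1 := ih (fun c hc => hF c (List.mem_cons_of_mem _ hc))
    have h2 : c.2.length = (EL.map (fun x => @ite ℕ (x ∈ c.2.edges) (Classical.propDecidable _) 1 0)).sum := by
      rw [← c.2.length_edges]
      exact length_eq_sum_ind _ EL (hF c List.mem_cons_self).edges_nodup hEL
        (fun e he => hE e (c.2.edges_subset_edgeSet he)) _
    rw [List.map_cons, List.sum_cons, h1, h2, add_comm, ← List.sum_map_add]
    congr 2
    funext e
    rw [mult_cons]

/-- Parity at a vertex for arbitrary closed walks. -/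
theorem walk_even {V : Type} [DecidableEq V] {G : SimpleGraph V} {a b : V} (p : G.Walk a b) (x : V) :
    Even (p.edges.countP fun e => decide (x ∈ e)) ↔ (a ≠ b → x ≠ a ∧ x ≠ b) := by
  induction p with
  | nil => simp
  | cons huv p ih =>
    simp only [List.countP_cons, Ne, Walk.edges_cons, Sym2.mem_iff]
    split_ifs with h
    · rw [decide_eq_true_eq] at h
      obtain (rfl | rfl) := h
      · rw [Nat.even_add_one, ih]
        simp only [huv.ne, imp_false, Ne, not_false_iff, true_and, not_forall,
          Classical.not_not, exists_prop, not_true, false_and,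
          and_iff_right_iff_imp]
        rintro rfl rfl
        exact G.loopless.irrefl _ huv
      · have := huv.ne; grind
    · grind

theorem count_length {α : Type} [DecidableEq α] (l B : List α) (hB : B.Nodup) (h : ∀ a ∈ l, a ∈ B) :
    l.length = (B.map (fun x => l.count x)).sum := by
  have h1 : ∑ a ∈ B.toFinset, (↑l : Multiset α).count a = Multiset.card (↑l : Multiset α) :=
    Multiset.sum_count_eq_card (fun a ha => by
      rw [List.mem_toFinset]; exact h a (by simpa using ha))
  rw [List.sum_toFinset _ hB] at h1
  simpa using h1.symm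

theorem walk_length {V : Type} [DecidableEq V] {G : SimpleGraph V} {a : V} (p : G.Walk a a)
    (EL : List (Sym2 V)) (hEL : EL.Nodup) (hE : ∀ e ∈ G.edgeSet, e ∈ EL) :
    p.length = (EL.map (fun e => p.edges.count e)).sum := by
  rw [← p.length_edges]
  exact count_length _ _ hEL (fun e he => hE e (p.edges_subset_edgeSet he))

theorem walk_vertex {V : Type} [DecidableEq V] {G : SimpleGraph V} {a : V} (p : G.Walk a a) (v : V)
    (L : List V) (hL : L.Nodup) (hadj : ∀ u, G.Adj v u → u ∈ L) :
    Even ((L.map (fun u => p.edges.count s(v, u))).sum) := by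
  have h0 : Even (p.edges.countP fun e => decide (v ∈ e)) := by
    rw [walk_even]
    intro h; exact absurd rfl h
  rw [List.countP_eq_length_filter] at h0
  have hB : (L.map (fun u => s(v, u))).Nodup := by
    refine hL.map ?_
    intro x y hxy
    exact Sym2.congr_right.mp hxy
  rw [count_length _ (L.map (fun u => s(v, u))) hB ?_] at h0
  · rw [List.map_map] at h0
    have : (L.map ((fun x => (p.edges.filter (fun e => decide (v ∈ e))).count x) ∘ fun u => s(v, u)))
        = (L.map (fun u => p.edges.count s(v, u))) := by
      apply List.map_congr_left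
      intro u _
      simp only [Function.comp]
      rw [List.count_filter]
      simp
    rw [this] at h0
    exact h0
  · intro e he
    rw [List.mem_filter] at he
    obtain ⟨he, hv⟩ := he
    simp only [decide_eq_true_eq] at hv
    obtain ⟨u, rfl⟩ := Sym2.mem_iff_exists.mp hv
    rw [List.mem_map]
    refine ⟨u, hadj u ?_, rfl⟩
    exact p.adj_of_mem_edges he

end Pool.Agent.H15CC
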