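import Mathlib
set_option autoImplicit false

/-!
A kernel-friendly certificate of 3-connectivity for explicit graphs on `Fin n`.
-/
namespace Pool.Agent.H15CC

open SimpleGraph

def orRows : List (ℕ × ℕ) → ℕ → ℕ
  | [], _ => 0
  | (i, r) :: t, R => if R.testBit i then r ||| orRows t R else orRows t R

def step (rows : List (ℕ × ℕ)) (M R : ℕ) : ℕ := (R ||| orRows rows R) &&& M

def closure (rows : List (ℕ × ℕ)) (M : ℕ) : ℕ → ℕ → ℕ
  | 0, R => R
  | k + 1, R => closure rows M k (step rows M R)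

def root (M : ℕ) : ℕ := if M.testBit 0 then 0 else if M.testBit 1 then 1 else 2

def chk (rows : List (ℕ × ℕ)) (k M : ℕ) : Bool :=
  M.testBit (root M) && (closure rows M k (2 ^ (root M)) == M)

theorem orRows_testBit (rows : List (ℕ × ℕ)) (R j : ℕ) (h : (orRows rows R).testBit j = true) :
    ∃ p ∈ rows, R.testBit p.1 = true ∧ p.2.testBit j = true := by
  induction rows with
  | nil => simp [orRows] at h
  | cons p t ih =>
    obtain ⟨i, r⟩ := p
    unfold orRows at h
    split_ifs at h with hb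
    · rw [Nat.testBit_or, Bool.or_eq_true] at h
      rcases h with h | h
      · exact ⟨(i, r), List.mem_cons_self, hb, h⟩
      · obtain ⟨p, hp, h1, h2⟩ := ih h
        exact ⟨p, List.mem_cons_of_mem _ hp, h1, h2⟩
    · obtain ⟨p, hp, h1, h2⟩ := ih h
      exact ⟨p, List.mem_cons_of_mem _ hp, h1, h2⟩

section
variable {n : ℕ} (G : SimpleGraph (Fin n)) (rows : List (ℕ × ℕ))
  (hrow : ∀ p ∈ rows, ∀ j : ℕ, p.2.testBit j = true →
    ∃ (hi : p.1 < n) (hj : j < n), G.Adj ⟨p.1, hi⟩ ⟨j, hj⟩)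
  (s : Set (Fin n)) (M : ℕ) (hM : ∀ i : ℕ, M.testBit i = true → ∃ h : i < n, (⟨i, h⟩ : Fin n) ∈ s)
  (r : s)

def Good (i : ℕ) : Prop := ∃ (h : i < n) (hs : (⟨i, h⟩ : Fin n) ∈ s), (G.induce s).Reachable r ⟨⟨i, h⟩, hs⟩

include hrow hM in
theorem step_good (R : ℕ) (hR : ∀ i, R.testBit i = true → Good G s r i) :
    ∀ i, (step rows M R).testBit i = true → Good G s r i := by
  intro i hi
  unfold step at hi
  rw [Nat.testBit_and, Nat.testBit_or, Bool.and_eq_true, Bool.or_eq_true] at hi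
  obtain ⟨hi | hi, hMi⟩ := hi
  · exact hR i hi
  · obtain ⟨p, hp, h1, h2⟩ := orRows_testBit rows R i hi
    obtain ⟨h1', hs1, hr1⟩ := hR _ h1
    obtain ⟨ha, hb, hadj⟩ := hrow p hp i h2
    obtain ⟨hin, his⟩ := hM i hMi
    refine ⟨hin, his, hr1.trans ?_⟩
    apply SimpleGraph.Adj.reachable
    rw [SimpleGraph.comap_adj]
    exact hadj

include hrow hM in
theorem closure_good (k : ℕ) : ∀ (R : ℕ), (∀ i, R.testBit i = true → Good G s r i) →
    ∀ i, (closure rows M k R).testBit i = true → Good G s r i := by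
  induction k with
  | zero => intro R hR i hi; exact hR i hi
  | succ k ih =>
    intro R hR i hi
    exact ih _ (step_good G rows hrow s M hM r R hR) i hi

end

theorem conn_of_chk {n : ℕ} (G : SimpleGraph (Fin n)) (rows : List (ℕ × ℕ))
    (hrow : ∀ p ∈ rows, ∀ j : ℕ, p.2.testBit j = true →
      ∃ (hi : p.1 < n) (hj : j < n), G.Adj ⟨p.1, hi⟩ ⟨j, hj⟩)
    (s : Set (Fin n)) (M : ℕ) (hM : ∀ i : ℕ, M.testBit i = true ↔ ∃ h : i < n, (⟨i, h⟩ : Fin n) ∈ s)
    (k : ℕ) (hc : chk rows k M = true) : (G.induce s).Connected := by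
  unfold chk at hc
  rw [Bool.and_eq_true] at hc
  obtain ⟨h1, h2⟩ := hc
  obtain ⟨hr, hrs⟩ := (hM _).mp h1
  have h2' : closure rows M k (2 ^ (root M)) = M := by simpa using h2
  rw [SimpleGraph.connected_iff_exists_forall_reachable]
  refine ⟨⟨⟨root M, hr⟩, hrs⟩, ?_⟩
  rintro ⟨⟨v, hv⟩, hvs⟩
  have hb : M.testBit v = true := (hM v).mpr ⟨hv, hvs⟩
  rw [← h2'] at hb
  have := closure_good G rows hrow s M (fun i hi => (hM i).mp hi) ⟨⟨root M, hr⟩, hrs⟩ k (2 ^ (root M)) ?_ v hb
  · obtain ⟨h, hs, hrr⟩ := this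
    exact hrr
  · intro i hi
    rw [Nat.testBit_two_pow] at hi
    have hi' : root M = i := by simpa using hi
    subst hi'
    exact ⟨hr, hrs, SimpleGraph.Reachable.refl _⟩

/-- Certificate of 3-connectivity. -/
theorem three_conn (n : ℕ) (hn : 3 < n) (G : SimpleGraph (Fin n)) (rows : List (ℕ × ℕ))
    (hrow : ∀ p ∈ rows, ∀ j : ℕ, p.2.testBit j = true →
      ∃ (hi : p.1 < n) (hj : j < n), G.Adj ⟨p.1, hi⟩ ⟨j, hj⟩)
    (k : ℕ) (hc0 : chk rows k (2 ^ n - 1) = true)
    (hc : ∀ a b : Fin n, chk rows k ((2 ^ n - 1) ^^^ (2 ^ a.val ||| 2 ^ b.val)) = true) :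
    3 < Fintype.card (Fin n) ∧
      ∀ S : Finset (Fin n), S.card < 3 → (G.induce ((↑S : Set (Fin n))ᶜ)).Connected := by
  refine ⟨by simpa using hn, ?_⟩
  have key : ∀ S : Finset (Fin n), (∃ a b : Fin n, S = {a, b}) →
      (G.induce ((↑S : Set (Fin n))ᶜ)).Connected := by
    rintro S ⟨a, b, rfl⟩
    refine conn_of_chk G rows hrow _ _ ?_ k (hc a b)
    intro i
    rw [Nat.testBit_xor, Nat.testBit_or, Nat.testBit_two_pow_sub_one, Nat.testBit_two_pow, Nat.testBit_two_pow]
    constructor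
    · intro h
      by_cases hi : i < n
      · refine ⟨hi, ?_⟩
        simp only [hi, decide_true] at h
        simp only [Finset.coe_insert, Finset.coe_singleton, Set.mem_compl_iff, Set.mem_insert_iff,
          Set.mem_singleton_iff, Fin.ext_iff, not_or]
        have : ¬ (a.val = i) ∧ ¬ (b.val = i) := by simpa using h
        exact ⟨fun h => this.1 h.symm, fun h => this.2 h.symm⟩
      · exfalso
        have ha := a.isLt
        have hb := b.isLt
        have h1 : ¬ (a.val = i) := by omega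
        have h2 : ¬ (b.val = i) := by omega
        simp [hi, h1, h2] at h
    · rintro ⟨hi, hs⟩
      simp only [Finset.coe_insert, Finset.coe_singleton, Set.mem_compl_iff, Set.mem_insert_iff,
          Set.mem_singleton_iff, Fin.ext_iff, not_or] at hs
      have h1 : ¬ (a.val = i) := fun h => hs.1 h.symm
      have h2 : ¬ (b.val = i) := fun h => hs.2 h.symm
      simp [hi, h1, h2]
  intro S hS
  rcases Nat.lt_or_ge S.card 1 with h | h
  · have : S = ∅ := by rw [← Finset.card_eq_zero]; omega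
    subst this
    refine conn_of_chk G rows hrow _ _ ?_ k hc0
    intro i
    rw [Nat.testBit_two_pow_sub_one]
    simp
  · rcases Nat.lt_or_ge S.card 2 with h' | h'
    · obtain ⟨a, rfl⟩ := Finset.card_eq_one.mp (show S.card = 1 by omega)
      exact key _ ⟨a, a, by simp⟩
    · obtain ⟨a, b, -, rfl⟩ := Finset.card_eq_two.mp (show S.card = 2 by omega)
      exact key _ ⟨a, b, rfl⟩

end Pool.Agent.H15CC
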