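import Pool.Agent.H15CC.Basic
set_option autoImplicit false

/-!
The contraction argument: a family of cycles which behaves like a cover of the Petersen graph with
weight 2 on the spokes and weight 1 on the two pentagons does not exist.
-/
namespace Pool.Agent.H15CC

open SimpleGraph

/-- Indicator of `e` being an edge of the closed walk `c`. -/
noncomputable def ind {V : Type} {G : SimpleGraph V} (c : Σ u : V, G.Walk u u) (e : Sym2 V) : ℕ :=
  @ite ℕ (e ∈ c.2.edges) (Classical.propDecidable _) 1 0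

theorem ind_le {V : Type} {G : SimpleGraph V} (c : Σ u : V, G.Walk u u) (e : Sym2 V) : ind c e ≤ 1 := by
  unfold ind; split_ifs <;> simp

theorem even_ind {V : Type} {G : SimpleGraph V} (c : Σ u : V, G.Walk u u) (hp : c.2.IsTrail) (v : V)
    (L : List V) (hL : L.Nodup) (hadj : ∀ u, G.Adj v u → u ∈ L) :
    Even ((L.map (fun u => ind c s(v, u))).sum) :=
  even_single c.2 hp v L hL hadj (fun _ => Classical.propDecidable _)

/-- Indices of members of `F` containing `e`. -/
noncomputable def idx {V : Type} {G : SimpleGraph V} (F : List (Σ u : V, G.Walk u u)) (e : Sym2 V) :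
    Finset (Fin F.length) := by
  classical exact Finset.univ.filter (fun k => e ∈ (F.get k).2.edges)

theorem mem_idx {V : Type} {G : SimpleGraph V} (F : List (Σ u : V, G.Walk u u)) (e : Sym2 V)
    (k : Fin F.length) : k ∈ idx F e ↔ e ∈ (F.get k).2.edges := by
  classical
  unfold idx
  simp

theorem card_idx {V : Type} {G : SimpleGraph V} (F : List (Σ u : V, G.Walk u u)) (e : Sym2 V) :
    (idx F e).card = mult F e := by
  classical
  unfold idx mult
  have h : F.countP (fun c => decide (e ∈ c.2.edges)) =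
      ((List.finRange F.length).map F.get).countP (fun c => decide (e ∈ c.2.edges)) := by
    rw [List.map_get_finRange]
  rw [h, List.countP_map, List.countP_eq_length_filter, Fin.univ_def]
  rfl

theorem spoke {V : Type} {G : SimpleGraph V} (F : List (Σ u : V, G.Walk u u)) (m e f : Sym2 V)
    (hpar : ∀ c ∈ F, Even (ind c m + ind c e + ind c f)) (hm : mult F m = 2)
    (i j : Fin F.length) (he : idx F e = {i}) (hf : idx F f = {j}) : i ≠ j ∧ idx F m = {i, j} := by
  classical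
  have h1 : ∀ k : Fin F.length, k ∈ idx F m ↔ ((k = i ∧ k ≠ j) ∨ (k ≠ i ∧ k = j)) := by
    intro k
    have hk := hpar (F.get k) (List.get_mem _ _)
    have h2 : k = i ↔ e ∈ (F.get k).2.edges := by rw [← mem_idx, he, Finset.mem_singleton]
    have h3 : k = j ↔ f ∈ (F.get k).2.edges := by rw [← mem_idx, hf, Finset.mem_singleton]
    rw [mem_idx]
    rw [Ne, Ne, h2, h3]
    unfold ind at hk
    generalize (m ∈ (F.get k).2.edges) = P at hk ⊢
    generalize (e ∈ (F.get k).2.edges) = Q at hk ⊢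
    generalize (f ∈ (F.get k).2.edges) = R at hk ⊢
    by_cases hP : P <;> by_cases hQ : Q <;> by_cases hR : R <;> simp [hP, hQ, hR, Nat.even_iff] at hk ⊢
  have h4 : i ≠ j := by
    intro hij
    have : idx F m = ∅ := by
      ext k
      rw [h1]
      simp [hij]
    have h5 := card_idx F m
    rw [this, hm] at h5
    simp at h5
  refine ⟨h4, ?_⟩
  ext k
  rw [h1]
  simp only [Finset.mem_insert, Finset.mem_singleton]
  constructor
  · rintro (⟨h, -⟩ | ⟨-, h⟩)
    · exact Or.inl h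
    · exact Or.inr h
  · rintro (h | h)
    · exact Or.inl ⟨h, fun h' => h4 (h ▸ h')⟩
    · exact Or.inr ⟨fun h' => h4 (by rw [← h', h]), h⟩

theorem pair_cases {α : Type} [DecidableEq α] {i j k l : α} (h : ({i, j} : Finset α) = {k, l}) (hij : i ≠ j)
    : (i = k ∧ j = l) ∨ (i = l ∧ j = k) := by
  have h1 : i ∈ ({k, l} : Finset α) := by rw [← h]; simp
  have h2 : j ∈ ({k, l} : Finset α) := by rw [← h]; simp
  simp only [Finset.mem_insert, Finset.mem_singleton] at h1 h2
  rcases h1 with rfl | rfl <;> rcases h2 with rfl | rfl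
  · exact absurd rfl hij
  · exact Or.inl ⟨rfl, rfl⟩
  · exact Or.inr ⟨rfl, rfl⟩
  · exact absurd rfl hij

/-- The combinatorial core: no consistent colouring exists. -/
theorem core (a0 a1 a2 a3 a4 b0 b1 b2 b3 b4 : ℕ)
    (h0 : a0 ≠ a4 ∧ ((a0 = b0 ∧ a4 = b3) ∨ (a0 = b3 ∧ a4 = b0)))
    (h1 : a1 ≠ a0 ∧ ((a1 = b1 ∧ a0 = b4) ∨ (a1 = b4 ∧ a0 = b1)))
    (h2 : a2 ≠ a1 ∧ ((a2 = b2 ∧ a1 = b0) ∨ (a2 = b0 ∧ a1 = b2)))
    (h3 : a3 ≠ a2 ∧ ((a3 = b3 ∧ a2 = b1) ∨ (a3 = b1 ∧ a2 = b3)))
    (h4 : a4 ≠ a3 ∧ ((a4 = b4 ∧ a3 = b2) ∨ (a4 = b2 ∧ a3 = b4))) : False := by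
  omega

theorem petersen_contra {V : Type} {G : SimpleGraph V} (F : List (Σ u : V, G.Walk u u))
    (a b s : Fin 5 → Sym2 V)
    (ha : ∀ i, mult F (a i) = 1) (hb : ∀ i, mult F (b i) = 1) (hs : ∀ i, mult F (s i) = 2)
    (hout : ∀ c ∈ F, ∀ i : Fin 5, Even (ind c (s i) + ind c (a i) + ind c (a (i + 4))))
    (hin : ∀ c ∈ F, ∀ i : Fin 5, Even (ind c (s i) + ind c (b i) + ind c (b (i + 3)))) : False := by
  have ha' : ∀ i, ∃ k, idx F (a i) = {k} := fun i => Finset.card_eq_one.mp (by rw [card_idx, ha])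
  have hb' : ∀ i, ∃ k, idx F (b i) = {k} := fun i => Finset.card_eq_one.mp (by rw [card_idx, hb])
  choose α hα using ha'
  choose β hβ using hb'
  have key : ∀ i : Fin 5, (α i).val ≠ (α (i + 4)).val ∧
      (((α i).val = (β i).val ∧ (α (i + 4)).val = (β (i + 3)).val) ∨
        ((α i).val = (β (i + 3)).val ∧ (α (i + 4)).val = (β i).val)) := by
    intro i
    obtain ⟨h1, h2⟩ := spoke F (s i) (a i) (a (i + 4)) (fun c hc => hout c hc i) (hs i) _ _ (hα i) (hα (i + 4))
    obtain ⟨h3, h4⟩ := spoke F (s i) (b i) (b (i + 3)) (fun c hc => hin c hc i) (hs i) _ _ (hβ i) (hβ (i + 3))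
    rw [h2] at h4
    refine ⟨fun h => h1 (Fin.ext h), ?_⟩
    rcases pair_cases h4 h1 with ⟨h5, h6⟩ | ⟨h5, h6⟩
    · left; exact ⟨by rw [h5], by rw [h6]⟩
    · right; exact ⟨by rw [h5], by rw [h6]⟩
  exact core _ _ _ _ _ _ _ _ _ _ (key 0) (key 1) (key 2) (key 3) (key 4)

end Pool.Agent.H15CC
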