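import Pool.Agent.H15CC.Basic
import Pool.Agent.H15CC.Conn
import Pool.Agent.H15CC.Pet

set_option autoImplicit false

/-!
A 3-connected graph on 26 vertices: the Petersen graph in which four vertices of one pentagon are replaced
by copies of `K₅` minus two edges.
-/
namespace Pool.Agent.H15CC.Big

open SimpleGraph

/-- Adjacency bit masks. -/
def rowsL : List (ℕ × ℕ) := [(0, 2097176), (1, 92), (2, 1048602), (3, 23), (4, 15), (5, 4195072), (6, 898), (7, 2880), (8, 736), (9, 480), (10, 8413184), (11, 28800), (12, 92160), (13, 23552), (14, 15360), (15, 17563648), (16, 921600), (17, 1900544), (18, 753664), (19, 491520), (20, 33685508), (21, 25165825), (22, 50331680), (23, 35652608), (24, 6324224), (25, 13631488)]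

/-- Adjacency bit masks as a function. -/
def rowN : List ℕ := [2097176, 92, 1048602, 23, 15, 4195072, 898, 2880, 736, 480, 8413184, 28800, 92160, 23552, 15360, 17563648, 921600, 1900544, 753664, 491520, 33685508, 25165825, 50331680, 35652608, 6324224, 13631488]

def adjB (i j : Fin 26) : Bool := (rowN.getD i.val 0).testBit j.val

/-- The graph. -/
def gr : SimpleGraph (Fin 26) where
  Adj i j := adjB i j = true
  symm := ⟨by decide +kernel⟩
  loopless := ⟨by decide +kernel⟩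

instance : DecidableRel gr.Adj := fun i j => inferInstanceAs (Decidable (adjB i j = true))

/-- Neighbour lists. -/
def nb : Fin 26 → List (Fin 26) := ![[3, 4, 21], [2, 3, 4, 6], [1, 3, 4, 20], [0, 1, 2, 4], [0, 1, 2, 3], [8, 9, 22], [1, 7, 8, 9], [6, 8, 9, 11], [5, 6, 7, 9], [5, 6, 7, 8], [13, 14, 23], [7, 12, 13, 14], [11, 13, 14, 16], [10, 11, 12, 14], [10, 11, 12, 13], [18, 19, 24], [12, 17, 18, 19], [16, 18, 19, 20], [15, 16, 17, 19], [15, 16, 17, 18], [2, 17, 25], [0, 23, 24], [5, 24, 25], [10, 21, 25], [15, 21, 22], [20, 22, 23]]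

/-- The edge list. -/
def EL : List (Sym2 (Fin 26)) := [s(1, 6), s(7, 11), s(12, 16), s(17, 20), s(2, 20), s(21, 23), s(22, 24), s(23, 25), s(21, 24), s(22, 25), s(0, 21), s(5, 22), s(10, 23), s(15, 24), s(20, 25), s(0, 3), s(0, 4), s(1, 2), s(1, 3), s(1, 4), s(2, 3), s(2, 4), s(3, 4), s(5, 8), s(5, 9), s(6, 7), s(6, 8), s(6, 9), s(7, 8), s(7, 9), s(8, 9), s(10, 13), s(10, 14), s(11, 12), s(11, 13), s(11, 14), s(12, 13), s(12, 14), s(13, 14), s(15, 18), s(15, 19), s(16, 17), s(16, 18), s(16, 19), s(17, 18), s(17, 19), s(18, 19)]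

theorem el_nodup : EL.Nodup := by decide +kernel

theorem el_adj : ∀ i j : Fin 26, adjB i j = true → s(i, j) ∈ EL := by decide +kernel

def ELp : List (Fin 26 × Fin 26) := [(1, 6), (7, 11), (12, 16), (17, 20), (2, 20), (21, 23), (22, 24), (23, 25), (21, 24), (22, 25), (0, 21), (5, 22), (10, 23), (15, 24), (20, 25), (0, 3), (0, 4), (1, 2), (1, 3), (1, 4), (2, 3), (2, 4), (3, 4), (5, 8), (5, 9), (6, 7), (6, 8), (6, 9), (7, 8), (7, 9), (8, 9), (10, 13), (10, 14), (11, 12), (11, 13), (11, 14), (12, 13), (12, 14), (13, 14), (15, 18), (15, 19), (16, 17), (16, 18), (16, 19), (17, 18), (17, 19), (18, 19)]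

theorem elp_adj : ∀ p ∈ ELp, adjB p.1 p.2 = true := by decide +kernel

theorem elp_map : EL = ELp.map (fun p => s(p.1, p.2)) := by rfl

theorem el_mem : ∀ e ∈ EL, e ∈ gr.edgeSet := by
  intro e he
  rw [elp_map, List.mem_map] at he
  obtain ⟨p, hp, rfl⟩ := he
  exact elp_adj p hp

theorem mem_el : ∀ e ∈ gr.edgeSet, e ∈ EL := by
  intro e he
  induction e using Sym2.ind with
  | _ i j => exact el_adj i j he

theorem nb_nodup : ∀ v : Fin 26, (nb v).Nodup := by decide +kernel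

theorem nb_mem : ∀ v u : Fin 26, gr.Adj v u → u ∈ nb v := by decide +kernel

theorem hrow : ∀ p ∈ rowsL, ∀ j : ℕ, p.2.testBit j = true →
    ∃ (hi : p.1 < 26) (hj : j < 26), gr.Adj ⟨p.1, hi⟩ ⟨j, hj⟩ := by
  have h1 : ∀ p ∈ rowsL, p.1 < 26 ∧ p.2 < 2 ^ 26 := by decide +kernel
  have h2 : ∀ p ∈ rowsL, ∀ hi : p.1 < 26, ∀ j : Fin 26, p.2.testBit j.val = true → gr.Adj ⟨p.1, hi⟩ j := by
    decide +kernel
  intro p hp j hj
  obtain ⟨h3, h4⟩ := h1 p hp
  have hj' : j < 26 := by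
    by_contra hc
    have : p.2 < 2 ^ j := lt_of_lt_of_le h4 (Nat.pow_le_pow_right (by norm_num) (by omega))
    rw [Nat.testBit_lt_two_pow this] at hj
    exact absurd hj (by simp)
  exact ⟨h3, hj', h2 p hp h3 ⟨j, hj'⟩ hj⟩

theorem three : 3 < Fintype.card (Fin 26) ∧
    ∀ S : Finset (Fin 26), S.card < 3 → (gr.induce ((↑S : Set (Fin 26))ᶜ)).Connected :=
  H15CC.three_conn 26 (by norm_num) gr rowsL hrow 9 (by decide +kernel) (by decide +kernel)

theorem par0 (x : Sym2 (Fin 26) → ℕ) (h : Even (((nb 0).map (fun u => x s(0, u))).sum)) :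
    (x s(0, 21) + x s(0, 3) + x s(0, 4)) % 2 = 0 := by
  change Even (x s(0, 3) + (x s(0, 4) + (x s(0, 21) + 0))) at h
  rw [Nat.even_iff] at h
  omega

theorem par1 (x : Sym2 (Fin 26) → ℕ) (h : Even (((nb 1).map (fun u => x s(1, u))).sum)) :
    (x s(1, 6) + x s(1, 2) + x s(1, 3) + x s(1, 4)) % 2 = 0 := by
  change Even (x s(1, 2) + (x s(1, 3) + (x s(1, 4) + (x s(1, 6) + 0)))) at h
  rw [Nat.even_iff] at h
  omega

theorem par2 (x : Sym2 (Fin 26) → ℕ) (h : Even (((nb 2).map (fun u => x s(2, u))).sum)) :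
    (x s(2, 20) + x s(1, 2) + x s(2, 3) + x s(2, 4)) % 2 = 0 := by
  change Even (x s(2, 1) + (x s(2, 3) + (x s(2, 4) + (x s(2, 20) + 0)))) at h
  rw [show (s(2, 1) : Sym2 (Fin 26)) = s(1, 2) from Sym2.eq_swap] at h
  rw [Nat.even_iff] at h
  omega

theorem par3 (x : Sym2 (Fin 26) → ℕ) (h : Even (((nb 3).map (fun u => x s(3, u))).sum)) :
    (x s(0, 3) + x s(1, 3) + x s(2, 3) + x s(3, 4)) % 2 = 0 := by
  change Even (x s(3, 0) + (x s(3, 1) + (x s(3, 2) + (x s(3, 4) + 0)))) at h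
  rw [show (s(3, 0) : Sym2 (Fin 26)) = s(0, 3) from Sym2.eq_swap] at h
  rw [show (s(3, 1) : Sym2 (Fin 26)) = s(1, 3) from Sym2.eq_swap] at h
  rw [show (s(3, 2) : Sym2 (Fin 26)) = s(2, 3) from Sym2.eq_swap] at h
  rw [Nat.even_iff] at h
  omega

theorem par4 (x : Sym2 (Fin 26) → ℕ) (h : Even (((nb 4).map (fun u => x s(4, u))).sum)) :
    (x s(0, 4) + x s(1, 4) + x s(2, 4) + x s(3, 4)) % 2 = 0 := by
  change Even (x s(4, 0) + (x s(4, 1) + (x s(4, 2) + (x s(4, 3) + 0)))) at h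
  rw [show (s(4, 0) : Sym2 (Fin 26)) = s(0, 4) from Sym2.eq_swap] at h
  rw [show (s(4, 1) : Sym2 (Fin 26)) = s(1, 4) from Sym2.eq_swap] at h
  rw [show (s(4, 2) : Sym2 (Fin 26)) = s(2, 4) from Sym2.eq_swap] at h
  rw [show (s(4, 3) : Sym2 (Fin 26)) = s(3, 4) from Sym2.eq_swap] at h
  rw [Nat.even_iff] at h
  omega

theorem par5 (x : Sym2 (Fin 26) → ℕ) (h : Even (((nb 5).map (fun u => x s(5, u))).sum)) :
    (x s(5, 22) + x s(5, 8) + x s(5, 9)) % 2 = 0 := by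
  change Even (x s(5, 8) + (x s(5, 9) + (x s(5, 22) + 0))) at h
  rw [Nat.even_iff] at h
  omega

theorem par6 (x : Sym2 (Fin 26) → ℕ) (h : Even (((nb 6).map (fun u => x s(6, u))).sum)) :
    (x s(1, 6) + x s(6, 7) + x s(6, 8) + x s(6, 9)) % 2 = 0 := by
  change Even (x s(6, 1) + (x s(6, 7) + (x s(6, 8) + (x s(6, 9) + 0)))) at h
  rw [show (s(6, 1) : Sym2 (Fin 26)) = s(1, 6) from Sym2.eq_swap] at h
  rw [Nat.even_iff] at h
  omega

theorem par7 (x : Sym2 (Fin 26) → ℕ) (h : Even (((nb 7).map (fun u => x s(7, u))).sum)) :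
    (x s(7, 11) + x s(6, 7) + x s(7, 8) + x s(7, 9)) % 2 = 0 := by
  change Even (x s(7, 6) + (x s(7, 8) + (x s(7, 9) + (x s(7, 11) + 0)))) at h
  rw [show (s(7, 6) : Sym2 (Fin 26)) = s(6, 7) from Sym2.eq_swap] at h
  rw [Nat.even_iff] at h
  omega

theorem par8 (x : Sym2 (Fin 26) → ℕ) (h : Even (((nb 8).map (fun u => x s(8, u))).sum)) :
    (x s(5, 8) + x s(6, 8) + x s(7, 8) + x s(8, 9)) % 2 = 0 := by
  change Even (x s(8, 5) + (x s(8, 6) + (x s(8, 7) + (x s(8, 9) + 0)))) at h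
  rw [show (s(8, 5) : Sym2 (Fin 26)) = s(5, 8) from Sym2.eq_swap] at h
  rw [show (s(8, 6) : Sym2 (Fin 26)) = s(6, 8) from Sym2.eq_swap] at h
  rw [show (s(8, 7) : Sym2 (Fin 26)) = s(7, 8) from Sym2.eq_swap] at h
  rw [Nat.even_iff] at h
  omega

theorem par9 (x : Sym2 (Fin 26) → ℕ) (h : Even (((nb 9).map (fun u => x s(9, u))).sum)) :
    (x s(5, 9) + x s(6, 9) + x s(7, 9) + x s(8, 9)) % 2 = 0 := by
  change Even (x s(9, 5) + (x s(9, 6) + (x s(9, 7) + (x s(9, 8) + 0)))) at h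
  rw [show (s(9, 5) : Sym2 (Fin 26)) = s(5, 9) from Sym2.eq_swap] at h
  rw [show (s(9, 6) : Sym2 (Fin 26)) = s(6, 9) from Sym2.eq_swap] at h
  rw [show (s(9, 7) : Sym2 (Fin 26)) = s(7, 9) from Sym2.eq_swap] at h
  rw [show (s(9, 8) : Sym2 (Fin 26)) = s(8, 9) from Sym2.eq_swap] at h
  rw [Nat.even_iff] at h
  omega

theorem par10 (x : Sym2 (Fin 26) → ℕ) (h : Even (((nb 10).map (fun u => x s(10, u))).sum)) :
    (x s(10, 23) + x s(10, 13) + x s(10, 14)) % 2 = 0 := by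
  change Even (x s(10, 13) + (x s(10, 14) + (x s(10, 23) + 0))) at h
  rw [Nat.even_iff] at h
  omega

theorem par11 (x : Sym2 (Fin 26) → ℕ) (h : Even (((nb 11).map (fun u => x s(11, u))).sum)) :
    (x s(7, 11) + x s(11, 12) + x s(11, 13) + x s(11, 14)) % 2 = 0 := by
  change Even (x s(11, 7) + (x s(11, 12) + (x s(11, 13) + (x s(11, 14) + 0)))) at h
  rw [show (s(11, 7) : Sym2 (Fin 26)) = s(7, 11) from Sym2.eq_swap] at h
  rw [Nat.even_iff] at h
  omega

theorem par12 (x : Sym2 (Fin 26) → ℕ) (h : Even (((nb 12).map (fun u => x s(12, u))).sum)) :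
    (x s(12, 16) + x s(11, 12) + x s(12, 13) + x s(12, 14)) % 2 = 0 := by
  change Even (x s(12, 11) + (x s(12, 13) + (x s(12, 14) + (x s(12, 16) + 0)))) at h
  rw [show (s(12, 11) : Sym2 (Fin 26)) = s(11, 12) from Sym2.eq_swap] at h
  rw [Nat.even_iff] at h
  omega

theorem par13 (x : Sym2 (Fin 26) → ℕ) (h : Even (((nb 13).map (fun u => x s(13, u))).sum)) :
    (x s(10, 13) + x s(11, 13) + x s(12, 13) + x s(13, 14)) % 2 = 0 := by
  change Even (x s(13, 10) + (x s(13, 11) + (x s(13, 12) + (x s(13, 14) + 0)))) at h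
  rw [show (s(13, 10) : Sym2 (Fin 26)) = s(10, 13) from Sym2.eq_swap] at h
  rw [show (s(13, 11) : Sym2 (Fin 26)) = s(11, 13) from Sym2.eq_swap] at h
  rw [show (s(13, 12) : Sym2 (Fin 26)) = s(12, 13) from Sym2.eq_swap] at h
  rw [Nat.even_iff] at h
  omega

theorem par14 (x : Sym2 (Fin 26) → ℕ) (h : Even (((nb 14).map (fun u => x s(14, u))).sum)) :
    (x s(10, 14) + x s(11, 14) + x s(12, 14) + x s(13, 14)) % 2 = 0 := by
  change Even (x s(14, 10) + (x s(14, 11) + (x s(14, 12) + (x s(14, 13) + 0)))) at h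
  rw [show (s(14, 10) : Sym2 (Fin 26)) = s(10, 14) from Sym2.eq_swap] at h
  rw [show (s(14, 11) : Sym2 (Fin 26)) = s(11, 14) from Sym2.eq_swap] at h
  rw [show (s(14, 12) : Sym2 (Fin 26)) = s(12, 14) from Sym2.eq_swap] at h
  rw [show (s(14, 13) : Sym2 (Fin 26)) = s(13, 14) from Sym2.eq_swap] at h
  rw [Nat.even_iff] at h
  omega

theorem par15 (x : Sym2 (Fin 26) → ℕ) (h : Even (((nb 15).map (fun u => x s(15, u))).sum)) :
    (x s(15, 24) + x s(15, 18) + x s(15, 19)) % 2 = 0 := by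
  change Even (x s(15, 18) + (x s(15, 19) + (x s(15, 24) + 0))) at h
  rw [Nat.even_iff] at h
  omega

theorem par16 (x : Sym2 (Fin 26) → ℕ) (h : Even (((nb 16).map (fun u => x s(16, u))).sum)) :
    (x s(12, 16) + x s(16, 17) + x s(16, 18) + x s(16, 19)) % 2 = 0 := by
  change Even (x s(16, 12) + (x s(16, 17) + (x s(16, 18) + (x s(16, 19) + 0)))) at h
  rw [show (s(16, 12) : Sym2 (Fin 26)) = s(12, 16) from Sym2.eq_swap] at h
  rw [Nat.even_iff] at h
  omega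

theorem par17 (x : Sym2 (Fin 26) → ℕ) (h : Even (((nb 17).map (fun u => x s(17, u))).sum)) :
    (x s(17, 20) + x s(16, 17) + x s(17, 18) + x s(17, 19)) % 2 = 0 := by
  change Even (x s(17, 16) + (x s(17, 18) + (x s(17, 19) + (x s(17, 20) + 0)))) at h
  rw [show (s(17, 16) : Sym2 (Fin 26)) = s(16, 17) from Sym2.eq_swap] at h
  rw [Nat.even_iff] at h
  omega

theorem par18 (x : Sym2 (Fin 26) → ℕ) (h : Even (((nb 18).map (fun u => x s(18, u))).sum)) :
    (x s(15, 18) + x s(16, 18) + x s(17, 18) + x s(18, 19)) % 2 = 0 := by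
  change Even (x s(18, 15) + (x s(18, 16) + (x s(18, 17) + (x s(18, 19) + 0)))) at h
  rw [show (s(18, 15) : Sym2 (Fin 26)) = s(15, 18) from Sym2.eq_swap] at h
  rw [show (s(18, 16) : Sym2 (Fin 26)) = s(16, 18) from Sym2.eq_swap] at h
  rw [show (s(18, 17) : Sym2 (Fin 26)) = s(17, 18) from Sym2.eq_swap] at h
  rw [Nat.even_iff] at h
  omega

theorem par19 (x : Sym2 (Fin 26) → ℕ) (h : Even (((nb 19).map (fun u => x s(19, u))).sum)) :
    (x s(15, 19) + x s(16, 19) + x s(17, 19) + x s(18, 19)) % 2 = 0 := by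
  change Even (x s(19, 15) + (x s(19, 16) + (x s(19, 17) + (x s(19, 18) + 0)))) at h
  rw [show (s(19, 15) : Sym2 (Fin 26)) = s(15, 19) from Sym2.eq_swap] at h
  rw [show (s(19, 16) : Sym2 (Fin 26)) = s(16, 19) from Sym2.eq_swap] at h
  rw [show (s(19, 17) : Sym2 (Fin 26)) = s(17, 19) from Sym2.eq_swap] at h
  rw [show (s(19, 18) : Sym2 (Fin 26)) = s(18, 19) from Sym2.eq_swap] at h
  rw [Nat.even_iff] at h
  omega

theorem par20 (x : Sym2 (Fin 26) → ℕ) (h : Even (((nb 20).map (fun u => x s(20, u))).sum)) :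
    (x s(20, 25) + x s(2, 20) + x s(17, 20)) % 2 = 0 := by
  change Even (x s(20, 2) + (x s(20, 17) + (x s(20, 25) + 0))) at h
  rw [show (s(20, 2) : Sym2 (Fin 26)) = s(2, 20) from Sym2.eq_swap] at h
  rw [show (s(20, 17) : Sym2 (Fin 26)) = s(17, 20) from Sym2.eq_swap] at h
  rw [Nat.even_iff] at h
  omega

theorem par21 (x : Sym2 (Fin 26) → ℕ) (h : Even (((nb 21).map (fun u => x s(21, u))).sum)) :
    (x s(0, 21) + x s(21, 23) + x s(21, 24)) % 2 = 0 := by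
  change Even (x s(21, 0) + (x s(21, 23) + (x s(21, 24) + 0))) at h
  rw [show (s(21, 0) : Sym2 (Fin 26)) = s(0, 21) from Sym2.eq_swap] at h
  rw [Nat.even_iff] at h
  omega

theorem par22 (x : Sym2 (Fin 26) → ℕ) (h : Even (((nb 22).map (fun u => x s(22, u))).sum)) :
    (x s(5, 22) + x s(22, 24) + x s(22, 25)) % 2 = 0 := by
  change Even (x s(22, 5) + (x s(22, 24) + (x s(22, 25) + 0))) at h
  rw [show (s(22, 5) : Sym2 (Fin 26)) = s(5, 22) from Sym2.eq_swap] at h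
  rw [Nat.even_iff] at h
  omega

theorem par23 (x : Sym2 (Fin 26) → ℕ) (h : Even (((nb 23).map (fun u => x s(23, u))).sum)) :
    (x s(10, 23) + x s(23, 25) + x s(21, 23)) % 2 = 0 := by
  change Even (x s(23, 10) + (x s(23, 21) + (x s(23, 25) + 0))) at h
  rw [show (s(23, 10) : Sym2 (Fin 26)) = s(10, 23) from Sym2.eq_swap] at h
  rw [show (s(23, 21) : Sym2 (Fin 26)) = s(21, 23) from Sym2.eq_swap] at h
  rw [Nat.even_iff] at h
  omega

theorem par24 (x : Sym2 (Fin 26) → ℕ) (h : Even (((nb 24).map (fun u => x s(24, u))).sum)) :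
    (x s(15, 24) + x s(21, 24) + x s(22, 24)) % 2 = 0 := by
  change Even (x s(24, 15) + (x s(24, 21) + (x s(24, 22) + 0))) at h
  rw [show (s(24, 15) : Sym2 (Fin 26)) = s(15, 24) from Sym2.eq_swap] at h
  rw [show (s(24, 21) : Sym2 (Fin 26)) = s(21, 24) from Sym2.eq_swap] at h
  rw [show (s(24, 22) : Sym2 (Fin 26)) = s(22, 24) from Sym2.eq_swap] at h
  rw [Nat.even_iff] at h
  omega

theorem par25 (x : Sym2 (Fin 26) → ℕ) (h : Even (((nb 25).map (fun u => x s(25, u))).sum)) :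
    (x s(20, 25) + x s(22, 25) + x s(23, 25)) % 2 = 0 := by
  change Even (x s(25, 20) + (x s(25, 22) + (x s(25, 23) + 0))) at h
  rw [show (s(25, 20) : Sym2 (Fin 26)) = s(20, 25) from Sym2.eq_swap] at h
  rw [show (s(25, 22) : Sym2 (Fin 26)) = s(22, 25) from Sym2.eq_swap] at h
  rw [show (s(25, 23) : Sym2 (Fin 26)) = s(23, 25) from Sym2.eq_swap] at h
  rw [Nat.even_iff] at h
  omega

theorem piece (m e f my mz ef ey ez fy fz yz : ℕ)
    (hm1 : 1 ≤ m ∧ m ≤ 2) (he1 : 1 ≤ e ∧ e ≤ 2) (hf1 : 1 ≤ f ∧ f ≤ 2)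
    (h1 : 1 ≤ my ∧ my ≤ 2) (h2 : 1 ≤ mz ∧ mz ≤ 2) (h3 : 1 ≤ ef ∧ ef ≤ 2) (h4 : 1 ≤ ey ∧ ey ≤ 2)
    (h5 : 1 ≤ ez ∧ ez ≤ 2) (h6 : 1 ≤ fy ∧ fy ≤ 2) (h7 : 1 ≤ fz ∧ fz ≤ 2) (h8 : 1 ≤ yz ∧ yz ≤ 2)
    (hm : (m + my + mz) % 2 = 0) (he : (e + ef + ey + ez) % 2 = 0) (hf : (f + ef + fy + fz) % 2 = 0) :
    9 + max e f ≤ my + mz + ef + ey + ez + fy + fz + yz + m := by
  have g1 : 9 + e ≤ my + mz + ef + ey + ez + fy + fz + yz + m := by omega
  have g2 : 9 + f ≤ my + mz + ef + ey + ez + fy + fz + yz + m := by omega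
  rcases max_choice e f with h | h <;> rw [h] <;> assumption

theorem pieceP (m e f my mz ef ey ez fy fz yz : ℕ)
    (hm : (m + my + mz) % 2 = 0) (he : (e + ef + ey + ez) % 2 = 0) (hf : (f + ef + fy + fz) % 2 = 0)
    (hy : (my + ey + fy + yz) % 2 = 0) (hz : (mz + ez + fz + yz) % 2 = 0) : (m + e + f) % 2 = 0 := by
  omega

theorem mem12 (k : ℕ) (h : 1 ≤ k ∧ k ≤ 2) : k ∈ ([1, 2] : List ℕ) := by
  have : k = 1 ∨ k = 2 := by omega
  simpa using this

theorem all12 {p : ℕ → Bool} (h : ([1, 2] : List ℕ).all p = true) {k : ℕ} (hk : k ∈ ([1, 2] : List ℕ)) :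
    p k = true := (List.all_eq_true.mp h) k hk

theorem impB {c : Prop} [Decidable c] {q : Bool} (h : (!(decide c) || q) = true) (hc : c) : q = true := by
  simpa [hc] using h

def skelB : Bool :=
  ([1, 2] : List ℕ).all fun a4 =>
    ([1, 2] : List ℕ).all fun a0 =>
    ([1, 2] : List ℕ).all fun s0 =>
    !(decide ((s0 + a0 + a4) % 2 = 0)) || (([1, 2] : List ℕ).all fun a1 =>
    ([1, 2] : List ℕ).all fun s1 =>
    !(decide ((s1 + a1 + a0) % 2 = 0)) || (([1, 2] : List ℕ).all fun a2 =>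
    ([1, 2] : List ℕ).all fun s2 =>
    !(decide ((s2 + a2 + a1) % 2 = 0)) || (([1, 2] : List ℕ).all fun a3 =>
    ([1, 2] : List ℕ).all fun s3 =>
    !(decide ((s3 + a3 + a2) % 2 = 0)) || (([1, 2] : List ℕ).all fun s4 =>
    !(decide ((s4 + a4 + a3) % 2 = 0)) || (([1, 2] : List ℕ).all fun b0 =>
    ([1, 2] : List ℕ).all fun b3 =>
    !(decide ((s0 + b0 + b3) % 2 = 0)) || (([1, 2] : List ℕ).all fun b2 =>
    !(decide ((s2 + b2 + b0) % 2 = 0)) || (([1, 2] : List ℕ).all fun b1 =>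
    !(decide ((s3 + b3 + b1) % 2 = 0)) || (([1, 2] : List ℕ).all fun b4 =>
    !(decide ((s1 + b1 + b4) % 2 = 0)) || (!(decide ((s4 + b4 + b2) % 2 = 0)) || (decide ((54 + (s0 + s1 + s2 + s3) < (a0 + a1 + a2 + a3 + a4) + (b0 + b1 + b2 + b3 + b4) + (s0 + s1 + s2 + s3 + s4) +
      36 + (max a0 a4 + max a1 a0 + max a2 a1 + max a3 a2)) ∨
    (a0 = 1 ∧ a1 = 1 ∧ a2 = 1 ∧ a3 = 1 ∧ a4 = 1 ∧ b0 = 1 ∧ b1 = 1 ∧ b2 = 1 ∧ b3 = 1 ∧ b4 = 1 ∧
      s0 = 2 ∧ s1 = 2 ∧ s2 = 2 ∧ s3 = 2 ∧ s4 = 2))))))))))))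

theorem skelB_true : skelB = true := by decide +kernel

theorem skel (a4 : ℕ) (ha4 : a4 ∈ ([1, 2] : List ℕ))
    (a0 : ℕ) (ha0 : a0 ∈ ([1, 2] : List ℕ))
    (s0 : ℕ) (hs0 : s0 ∈ ([1, 2] : List ℕ))
    (c0 : (s0 + a0 + a4) % 2 = 0)
    (a1 : ℕ) (ha1 : a1 ∈ ([1, 2] : List ℕ))
    (s1 : ℕ) (hs1 : s1 ∈ ([1, 2] : List ℕ))
    (c1 : (s1 + a1 + a0) % 2 = 0)
    (a2 : ℕ) (ha2 : a2 ∈ ([1, 2] : List ℕ))
    (s2 : ℕ) (hs2 : s2 ∈ ([1, 2] : List ℕ))
    (c2 : (s2 + a2 + a1) % 2 = 0)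
    (a3 : ℕ) (ha3 : a3 ∈ ([1, 2] : List ℕ))
    (s3 : ℕ) (hs3 : s3 ∈ ([1, 2] : List ℕ))
    (c3 : (s3 + a3 + a2) % 2 = 0)
    (s4 : ℕ) (hs4 : s4 ∈ ([1, 2] : List ℕ))
    (c4 : (s4 + a4 + a3) % 2 = 0)
    (b0 : ℕ) (hb0 : b0 ∈ ([1, 2] : List ℕ))
    (b3 : ℕ) (hb3 : b3 ∈ ([1, 2] : List ℕ))
    (c5 : (s0 + b0 + b3) % 2 = 0)
    (b2 : ℕ) (hb2 : b2 ∈ ([1, 2] : List ℕ))
    (c6 : (s2 + b2 + b0) % 2 = 0)
    (b1 : ℕ) (hb1 : b1 ∈ ([1, 2] : List ℕ))
    (c7 : (s3 + b3 + b1) % 2 = 0)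
    (b4 : ℕ) (hb4 : b4 ∈ ([1, 2] : List ℕ))
    (c8 : (s1 + b1 + b4) % 2 = 0)
    (c9 : (s4 + b4 + b2) % 2 = 0) :
    (54 + (s0 + s1 + s2 + s3) < (a0 + a1 + a2 + a3 + a4) + (b0 + b1 + b2 + b3 + b4) + (s0 + s1 + s2 + s3 + s4) +
      36 + (max a0 a4 + max a1 a0 + max a2 a1 + max a3 a2)) ∨
    (a0 = 1 ∧ a1 = 1 ∧ a2 = 1 ∧ a3 = 1 ∧ a4 = 1 ∧ b0 = 1 ∧ b1 = 1 ∧ b2 = 1 ∧ b3 = 1 ∧ b4 = 1 ∧
      s0 = 2 ∧ s1 = 2 ∧ s2 = 2 ∧ s3 = 2 ∧ s4 = 2) :=
  of_decide_eq_true (impB (impB (all12 (impB (all12 (impB (all12 (impB (all12 (all12 (impB (all12 (impB (all12 (all12 (impB (all12 (all12 (impB (all12 (all12 (impB (all12 (all12 (all12 (skelB_true) ha4) ha0) hs0) c0) ha1) hs1) c1) ha2) hs2) c2) ha3) hs3) c3) hs4) c4) hb0) hb3) c5) hb2) c6) hb1) c7) hb4) c8) c9)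

def av : Fin 5 → Sym2 (Fin 26) := ![s(1, 6), s(7, 11), s(12, 16), s(17, 20), s(2, 20)]
def bv : Fin 5 → Sym2 (Fin 26) := ![s(21, 23), s(22, 24), s(23, 25), s(21, 24), s(22, 25)]
def sv : Fin 5 → Sym2 (Fin 26) := ![s(0, 21), s(5, 22), s(10, 23), s(15, 24), s(20, 25)]

theorem sup (x : Sym2 (Fin 26) → ℕ) (hp : ∀ v : Fin 26, Even (((nb v).map (fun u => x s(v, u))).sum)) :
    (x s(0, 21) + x s(1, 6) + x s(2, 20)) % 2 = 0 ∧
    (x s(5, 22) + x s(7, 11) + x s(1, 6)) % 2 = 0 ∧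
    (x s(10, 23) + x s(12, 16) + x s(7, 11)) % 2 = 0 ∧
    (x s(15, 24) + x s(17, 20) + x s(12, 16)) % 2 = 0 ∧
    (x s(20, 25) + x s(2, 20) + x s(17, 20)) % 2 = 0 ∧
    (x s(0, 21) + x s(21, 23) + x s(21, 24)) % 2 = 0 ∧
    (x s(5, 22) + x s(22, 24) + x s(22, 25)) % 2 = 0 ∧
    (x s(10, 23) + x s(23, 25) + x s(21, 23)) % 2 = 0 ∧
    (x s(15, 24) + x s(21, 24) + x s(22, 24)) % 2 = 0 ∧
    (x s(20, 25) + x s(22, 25) + x s(23, 25)) % 2 = 0 := by
  refine ⟨?_, ?_, ?_, ?_, ?_, ?_, ?_, ?_, ?_, ?_⟩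
  · exact pieceP _ _ _ _ _ _ _ _ _ _ _ (par0 x (hp _)) (par1 x (hp _)) (par2 x (hp _)) (par3 x (hp _)) (par4 x (hp _))
  · have := pieceP _ _ _ _ _ _ _ _ _ _ _ (par5 x (hp _)) (par6 x (hp _)) (par7 x (hp _)) (par8 x (hp _)) (par9 x (hp _))
    omega
  · have := pieceP _ _ _ _ _ _ _ _ _ _ _ (par10 x (hp _)) (par11 x (hp _)) (par12 x (hp _)) (par13 x (hp _)) (par14 x (hp _))
    omega
  · have := pieceP _ _ _ _ _ _ _ _ _ _ _ (par15 x (hp _)) (par16 x (hp _)) (par17 x (hp _)) (par18 x (hp _)) (par19 x (hp _))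
    omega
  · exact par20 x (hp _)
  · exact par21 x (hp _)
  · exact par22 x (hp _)
  · exact par23 x (hp _)
  · exact par24 x (hp _)
  · exact par25 x (hp _)

theorem lowerX (x : Sym2 (Fin 26) → ℕ) (h1 : ∀ e ∈ EL, 1 ≤ x e ∧ x e ≤ 2)
    (hp : ∀ v : Fin 26, Even (((nb v).map (fun u => x s(v, u))).sum)) (hle : (EL.map x).sum ≤ 54) :
    (∀ i, x (av i) = 1) ∧ (∀ i, x (bv i) = 1) ∧ (∀ i, x (sv i) = 2) := by
  obtain ⟨p0, p1, p2, p3, p4, q0, q1, q2, q3, q4⟩ := sup x hp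
  have e0 := h1 s(1, 6) (by decide +kernel)
  have e1 := h1 s(7, 11) (by decide +kernel)
  have e2 := h1 s(12, 16) (by decide +kernel)
  have e3 := h1 s(17, 20) (by decide +kernel)
  have e4 := h1 s(2, 20) (by decide +kernel)
  have e5 := h1 s(21, 23) (by decide +kernel)
  have e6 := h1 s(22, 24) (by decide +kernel)
  have e7 := h1 s(23, 25) (by decide +kernel)
  have e8 := h1 s(21, 24) (by decide +kernel)
  have e9 := h1 s(22, 25) (by decide +kernel)
  have e10 := h1 s(0, 21) (by decide +kernel)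
  have e11 := h1 s(5, 22) (by decide +kernel)
  have e12 := h1 s(10, 23) (by decide +kernel)
  have e13 := h1 s(15, 24) (by decide +kernel)
  have e14 := h1 s(20, 25) (by decide +kernel)
  have e15 := h1 s(0, 3) (by decide +kernel)
  have e16 := h1 s(0, 4) (by decide +kernel)
  have e17 := h1 s(1, 2) (by decide +kernel)
  have e18 := h1 s(1, 3) (by decide +kernel)
  have e19 := h1 s(1, 4) (by decide +kernel)
  have e20 := h1 s(2, 3) (by decide +kernel)
  have e21 := h1 s(2, 4) (by decide +kernel)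
  have e22 := h1 s(3, 4) (by decide +kernel)
  have e23 := h1 s(5, 8) (by decide +kernel)
  have e24 := h1 s(5, 9) (by decide +kernel)
  have e25 := h1 s(6, 7) (by decide +kernel)
  have e26 := h1 s(6, 8) (by decide +kernel)
  have e27 := h1 s(6, 9) (by decide +kernel)
  have e28 := h1 s(7, 8) (by decide +kernel)
  have e29 := h1 s(7, 9) (by decide +kernel)
  have e30 := h1 s(8, 9) (by decide +kernel)
  have e31 := h1 s(10, 13) (by decide +kernel)
  have e32 := h1 s(10, 14) (by decide +kernel)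
  have e33 := h1 s(11, 12) (by decide +kernel)
  have e34 := h1 s(11, 13) (by decide +kernel)
  have e35 := h1 s(11, 14) (by decide +kernel)
  have e36 := h1 s(12, 13) (by decide +kernel)
  have e37 := h1 s(12, 14) (by decide +kernel)
  have e38 := h1 s(13, 14) (by decide +kernel)
  have e39 := h1 s(15, 18) (by decide +kernel)
  have e40 := h1 s(15, 19) (by decide +kernel)
  have e41 := h1 s(16, 17) (by decide +kernel)
  have e42 := h1 s(16, 18) (by decide +kernel)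
  have e43 := h1 s(16, 19) (by decide +kernel)
  have e44 := h1 s(17, 18) (by decide +kernel)
  have e45 := h1 s(17, 19) (by decide +kernel)
  have e46 := h1 s(18, 19) (by decide +kernel)
  have I0 := piece _ _ _ _ _ _ _ _ _ _ _ e10 e0 e4 e15 e16 e17 e18 e19 e20 e21 e22 (par0 x (hp _)) (par1 x (hp _)) (par2 x (hp _))
  have I1 := piece _ _ _ _ _ _ _ _ _ _ _ e11 e0 e1 e23 e24 e25 e26 e27 e28 e29 e30 (par5 x (hp _)) (par6 x (hp _)) (par7 x (hp _))
  rw [max_comm] at I1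
  have I2 := piece _ _ _ _ _ _ _ _ _ _ _ e12 e1 e2 e31 e32 e33 e34 e35 e36 e37 e38 (par10 x (hp _)) (par11 x (hp _)) (par12 x (hp _))
  rw [max_comm] at I2
  have I3 := piece _ _ _ _ _ _ _ _ _ _ _ e13 e2 e3 e39 e40 e41 e42 e43 e44 e45 e46 (par15 x (hp _)) (par16 x (hp _)) (par17 x (hp _))
  rw [max_comm] at I3
  have key := skel _ (mem12 _ e4) _ (mem12 _ e0) _ (mem12 _ e10) p0 _ (mem12 _ e1) _ (mem12 _ e11) p1 _ (mem12 _ e2) _ (mem12 _ e12) p2 _ (mem12 _ e3) _ (mem12 _ e13) p3 _ (mem12 _ e14) p4 _ (mem12 _ e5) _ (mem12 _ e8) q0 _ (mem12 _ e7) q2 _ (mem12 _ e6) q3 _ (mem12 _ e9) q1 q4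
  rcases key with key | key
  · exfalso
    change x s(1, 6) + (x s(7, 11) + (x s(12, 16) + (x s(17, 20) + (x s(2, 20) + (x s(21, 23) + (x s(22, 24) + (x s(23, 25) + (x s(21, 24) + (x s(22, 25) + (x s(0, 21) + (x s(5, 22) + (x s(10, 23) + (x s(15, 24) + (x s(20, 25) + (x s(0, 3) + (x s(0, 4) + (x s(1, 2) + (x s(1, 3) + (x s(1, 4) + (x s(2, 3) + (x s(2, 4) + (x s(3, 4) + (x s(5, 8) + (x s(5, 9) + (x s(6, 7) + (x s(6, 8) + (x s(6, 9) + (x s(7, 8) + (x s(7, 9) + (x s(8, 9) + (x s(10, 13) + (x s(10, 14) + (x s(11, 12) + (x s(11, 13) + (x s(11, 14) + (x s(12, 13) + (x s(12, 14) + (x s(13, 14) + (x s(15, 18) + (x s(15, 19) + (x s(16, 17) + (x s(16, 18) + (x s(16, 19) + (x s(17, 18) + (x s(17, 19) + (x s(18, 19) + 0)))))))))))))))))))))))))))))))))))))))))))))) ≤ 54 at hle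
    clear p0 p1 p2 p3 p4 q0 q1 q2 q3 q4 h1 hp e0 e1 e2 e3 e4 e5 e6 e7 e8 e9 e10 e11 e12 e13 e14 e15 e16 e17 e18 e19 e20 e21 e22 e23 e24 e25 e26 e27 e28 e29 e30 e31 e32 e33 e34 e35 e36 e37 e38 e39 e40 e41 e42 e43 e44 e45 e46
    omega
  · obtain ⟨k1, k2, k3, k4, k5, k6, k7, k8, k9, k10, k11, k12, k13, k14, k15⟩ := key
    refine ⟨?_, ?_, ?_⟩
    · intro i
      fin_cases i
      · exact k1
      · exact k2
      · exact k3
      · exact k4
      · exact k5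
    · intro i
      fin_cases i
      · exact k6
      · exact k7
      · exact k8
      · exact k9
      · exact k10
    · intro i
      fin_cases i
      · exact k11
      · exact k12
      · exact k13
      · exact k14
      · exact k15

/-- A cycle of the cover. -/
def c0 : gr.Walk 0 0 :=
  .cons (v := 3) (by decide +kernel) (.cons (v := 1) (by decide +kernel) (.cons (v := 6) (by decide +kernel) (.cons (v := 8) (by decide +kernel) (.cons (v := 5) (by decide +kernel) (.cons (v := 22) (by decide +kernel) (.cons (v := 24) (by decide +kernel) (.cons (v := 15) (by decide +kernel) (.cons (v := 18) (by decide +kernel) (.cons (v := 16) (by decide +kernel) (.cons (v := 12) (by decide +kernel) (.cons (v := 14) (by decide +kernel) (.cons (v := 10) (by decide +kernel) (.cons (v := 23) (by decide +kernel) (.cons (v := 21) (by decide +kernel) (.cons (v := 0) (by decide +kernel) .nil)))))))))))))))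

/-- A cycle of the cover. -/
def c1 : gr.Walk 0 0 :=
  .cons (v := 4) (by decide +kernel) (.cons (v := 2) (by decide +kernel) (.cons (v := 20) (by decide +kernel) (.cons (v := 25) (by decide +kernel) (.cons (v := 22) (by decide +kernel) (.cons (v := 5) (by decide +kernel) (.cons (v := 9) (by decide +kernel) (.cons (v := 7) (by decide +kernel) (.cons (v := 11) (by decide +kernel) (.cons (v := 13) (by decide +kernel) (.cons (v := 10) (by decide +kernel) (.cons (v := 23) (by decide +kernel) (.cons (v := 21) (by decide +kernel) (.cons (v := 0) (by decide +kernel) .nil)))))))))))))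

/-- A cycle of the cover. -/
def c2 : gr.Walk 15 15 :=
  .cons (v := 19) (by decide +kernel) (.cons (v := 17) (by decide +kernel) (.cons (v := 20) (by decide +kernel) (.cons (v := 25) (by decide +kernel) (.cons (v := 23) (by decide +kernel) (.cons (v := 21) (by decide +kernel) (.cons (v := 24) (by decide +kernel) (.cons (v := 15) (by decide +kernel) .nil)))))))

/-- A cycle of the cover. -/
def c3 : gr.Walk 1 1 :=
  .cons (v := 2) (by decide +kernel) (.cons (v := 3) (by decide +kernel) (.cons (v := 4) (by decide +kernel) (.cons (v := 1) (by decide +kernel) .nil)))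

/-- A cycle of the cover. -/
def c4 : gr.Walk 6 6 :=
  .cons (v := 7) (by decide +kernel) (.cons (v := 8) (by decide +kernel) (.cons (v := 9) (by decide +kernel) (.cons (v := 6) (by decide +kernel) .nil)))

/-- A cycle of the cover. -/
def c5 : gr.Walk 11 11 :=
  .cons (v := 12) (by decide +kernel) (.cons (v := 13) (by decide +kernel) (.cons (v := 14) (by decide +kernel) (.cons (v := 11) (by decide +kernel) .nil)))

/-- A cycle of the cover. -/
def c6 : gr.Walk 16 16 :=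
  .cons (v := 17) (by decide +kernel) (.cons (v := 18) (by decide +kernel) (.cons (v := 19) (by decide +kernel) (.cons (v := 16) (by decide +kernel) .nil)))

theorem c0_cycle : c0.IsCycle := by
  rw [Walk.isCycle_def]
  exact ⟨(Walk.isTrail_def _).mpr (by decide +kernel), (by intro h; cases h), by decide +kernel⟩

theorem c1_cycle : c1.IsCycle := by
  rw [Walk.isCycle_def]
  exact ⟨(Walk.isTrail_def _).mpr (by decide +kernel), (by intro h; cases h), by decide +kernel⟩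

theorem c2_cycle : c2.IsCycle := by
  rw [Walk.isCycle_def]
  exact ⟨(Walk.isTrail_def _).mpr (by decide +kernel), (by intro h; cases h), by decide +kernel⟩

theorem c3_cycle : c3.IsCycle := by
  rw [Walk.isCycle_def]
  exact ⟨(Walk.isTrail_def _).mpr (by decide +kernel), (by intro h; cases h), by decide +kernel⟩

theorem c4_cycle : c4.IsCycle := by
  rw [Walk.isCycle_def]
  exact ⟨(Walk.isTrail_def _).mpr (by decide +kernel), (by intro h; cases h), by decide +kernel⟩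

theorem c5_cycle : c5.IsCycle := by
  rw [Walk.isCycle_def]
  exact ⟨(Walk.isTrail_def _).mpr (by decide +kernel), (by intro h; cases h), by decide +kernel⟩

theorem c6_cycle : c6.IsCycle := by
  rw [Walk.isCycle_def]
  exact ⟨(Walk.isTrail_def _).mpr (by decide +kernel), (by intro h; cases h), by decide +kernel⟩

/-- The cover. -/
def cov : List (Σ u : Fin 26, gr.Walk u u) := [⟨_, c0⟩, ⟨_, c1⟩, ⟨_, c2⟩, ⟨_, c3⟩, ⟨_, c4⟩, ⟨_, c5⟩, ⟨_, c6⟩]

theorem cov_cycles : ∀ c ∈ cov, c.2.IsCycle := by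
  intro c hc
  simp only [cov, List.mem_cons, List.not_mem_nil, or_false] at hc
  rcases hc with rfl | rfl | rfl | rfl | rfl | rfl | rfl
  · exact c0_cycle
  · exact c1_cycle
  · exact c2_cycle
  · exact c3_cycle
  · exact c4_cycle
  · exact c5_cycle
  · exact c6_cycle

theorem cov_all' : ∀ i j : Fin 26, adjB i j = true →
    s(i, j) ∈ c0.edges ∨ s(i, j) ∈ c1.edges ∨ s(i, j) ∈ c2.edges ∨ s(i, j) ∈ c3.edges ∨ s(i, j) ∈ c4.edges ∨ s(i, j) ∈ c5.edges ∨ s(i, j) ∈ c6.edges := by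
  decide +kernel

theorem cov_all : ∀ e ∈ gr.edgeSet, ∃ c ∈ cov, e ∈ c.2.edges := by
  intro e he
  induction e using Sym2.ind with
  | _ i j =>
    rcases cov_all' i j he with h | h | h | h | h | h | h
    · exact ⟨⟨_, c0⟩, by simp [cov], h⟩
    · exact ⟨⟨_, c1⟩, by simp [cov], h⟩
    · exact ⟨⟨_, c2⟩, by simp [cov], h⟩
    · exact ⟨⟨_, c3⟩, by simp [cov], h⟩
    · exact ⟨⟨_, c4⟩, by simp [cov], h⟩
    · exact ⟨⟨_, c5⟩, by simp [cov], h⟩
    · exact ⟨⟨_, c6⟩, by simp [cov], h⟩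

theorem cov_len : (cov.map (fun c => c.2.length)).sum = 54 := by decide +kernel

theorem lower (F : List (Σ u : Fin 26, gr.Walk u u)) (hF : ∀ c ∈ F, c.2.IsCycle)
    (hcov : ∀ e ∈ gr.edgeSet, ∃ c ∈ F, e ∈ c.2.edges) (h2 : ∀ e ∈ gr.edgeSet, H15CC.mult F e ≤ 2) :
    54 < (F.map (fun c => c.2.length)).sum := by
  by_contra hlt
  have hT : ∀ c ∈ F, c.2.IsTrail := fun c hc => (hF c hc).isTrail
  rw [H15CC.total_eq F hT EL el_nodup mem_el, not_lt] at hlt
  have h1 : ∀ e ∈ EL, 1 ≤ H15CC.mult F e ∧ H15CC.mult F e ≤ 2 := by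
    intro e he
    refine ⟨?_, h2 e (el_mem e he)⟩
    obtain ⟨c, hc, hce⟩ := hcov e (el_mem e he)
    unfold H15CC.mult
    rw [Nat.succ_le_iff, List.countP_pos_iff]
    exact ⟨c, hc, by simpa using hce⟩
  obtain ⟨ha, hb, hs⟩ := lowerX (H15CC.mult F) h1
    (fun v => H15CC.even_mult F hT v (nb v) (nb_nodup v) (nb_mem v)) hlt
  refine H15CC.petersen_contra F av bv sv ha hb hs ?_ ?_
  · intro c hc i
    obtain ⟨p0, p1, p2, p3, p4, q0, q1, q2, q3, q4⟩ := sup (H15CC.ind c)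
      (fun v => H15CC.even_ind c (hT c hc) v (nb v) (nb_nodup v) (nb_mem v))
    rw [Nat.even_iff]
    fin_cases i
    · exact p0
    · exact p1
    · exact p2
    · exact p3
    · exact p4
  · intro c hc i
    obtain ⟨p0, p1, p2, p3, p4, q0, q1, q2, q3, q4⟩ := sup (H15CC.ind c)
      (fun v => H15CC.even_ind c (hT c hc) v (nb v) (nb_nodup v) (nb_mem v))
    rw [Nat.even_iff]
    fin_cases i
    · exact q0
    · exact q1
    · exact q2
    · exact q3
    · exact q4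

end Pool.Agent.H15CC.Big
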